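import Pool.Agent.Lib.MP_688fd0_co.SQ6.Iface

/-!
Board B1*, row LST: a permutation with at most two orbits whose steps are letters gives a listing
sequence. (The general lemma is the one of SQ3/H43/Factor2.lean.)
-/

set_option autoImplicit false

namespace Pool.Agent.Lib.MP_688fd0_co.SQ6.LstRow

open Function Pool.Agent.Lib.MP_688fd0_co.OSF

/-- A walk through all vertices (the start vertex is not counted). -/
theorem lst_of_walk {G : Type*} [Group G] (A : Set G) (n : ℕ) (v : ℕ → G)
    (he : ∀ k < n, (v k)⁻¹ * v (k + 1) ∈ A) (hi : ∀ i < n, ∀ j < n, v (i + 1) = v (j + 1) → i = j)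
    (hs : ∀ g, ∃ k < n, v (k + 1) = g) : Lst A := by
  have hb : Bijective (fun i : Fin n => v ((i : ℕ) + 1)) := by
    constructor
    · intro i j hij
      exact Fin.ext (hi i i.2 j j.2 hij)
    · intro g
      obtain ⟨k, hk, h⟩ := hs g
      exact ⟨⟨k, hk⟩, h⟩
  have hcard : Nat.card G = n := by
    rw [← Nat.card_congr (Equiv.ofBijective _ hb)]
    simp
  set a : Fin (Nat.card G) → G := fun i => (v (i : ℕ))⁻¹ * v ((i : ℕ) + 1) with ha
  have key : ∀ k ≤ Nat.card G, ((List.ofFn a).take k).prod = (v 0)⁻¹ * v k := by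
    intro k
    induction k with
    | zero => intro _; simp
    | succ k ih =>
      intro hk
      have hk' : k < (List.ofFn a).length := by rw [List.length_ofFn]; omega
      rw [List.prod_take_succ _ _ hk', ih (by omega)]
      simp only [List.getElem_ofFn, ha]
      rw [mul_assoc, mul_inv_cancel_left]
  refine ⟨a, fun i => he _ (hcard ▸ i.2), ?_⟩
  intro i j hij
  simp only at hij
  rw [key _ (by omega), key _ (by omega)] at hij
  exact Fin.ext (hi _ (hcard ▸ i.2) _ (hcard ▸ j.2) (mul_left_cancel hij))

section orbit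

variable {X : Type*}

/-- The iterates `1, …, minimalPeriod` are different. -/
theorem iter_inj (f : X → X) (x : X) (i j : ℕ) (hi : i < minimalPeriod f x) (hj : j < minimalPeriod f x)
    (h : f^[i + 1] x = f^[j + 1] x) : i = j := by
  by_contra hne
  rcases Nat.lt_or_gt_of_ne hne with hlt | hlt
  · rcases Nat.lt_or_ge (j + 1) (minimalPeriod f x) with h3 | h3
    · have := iterate_injOn_Iio_minimalPeriod (f := f) (x := x)
        (Set.mem_Iio.2 (lt_trans (Nat.succ_lt_succ hlt) h3)) (Set.mem_Iio.2 h3) h
      omega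
    · have e : j + 1 = minimalPeriod f x := by omega
      rw [e, iterate_minimalPeriod] at h
      have := iterate_injOn_Iio_minimalPeriod (f := f) (x := x)
        (Set.mem_Iio.2 (show i + 1 < minimalPeriod f x by omega))
        (Set.mem_Iio.2 (show 0 < minimalPeriod f x by omega)) h
      omega
  · rcases Nat.lt_or_ge (i + 1) (minimalPeriod f x) with h3 | h3
    · have := iterate_injOn_Iio_minimalPeriod (f := f) (x := x)
        (Set.mem_Iio.2 h3) (Set.mem_Iio.2 (lt_trans (Nat.succ_lt_succ hlt) h3)) h
      omega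
    · have e : i + 1 = minimalPeriod f x := by omega
      rw [e, iterate_minimalPeriod] at h
      have := iterate_injOn_Iio_minimalPeriod (f := f) (x := x)
        (Set.mem_Iio.2 (show 0 < minimalPeriod f x by omega))
        (Set.mem_Iio.2 (show j + 1 < minimalPeriod f x by omega)) h
      omega

/-- Every element of the orbit is one of the iterates `1, …, minimalPeriod`. -/
theorem iter_surj (f : X → X) (x y : X) (hx : x ∈ periodicPts f) (h : ∃ k, f^[k] x = y) :
    ∃ k < minimalPeriod f x, f^[k + 1] x = y := by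
  have hp : 0 < minimalPeriod f x := minimalPeriod_pos_iff_mem_periodicPts.2 hx
  obtain ⟨k, hk⟩ := h
  rcases Nat.eq_zero_or_pos (k % minimalPeriod f x) with h0 | h0
  · refine ⟨minimalPeriod f x - 1, by omega, ?_⟩
    rw [Nat.sub_add_cancel hp, iterate_minimalPeriod, ← hk, ← iterate_mod_minimalPeriod_eq, h0]
    rfl
  · refine ⟨k % minimalPeriod f x - 1, ?_, ?_⟩
    · have := Nat.mod_lt k hp
      omega
    · rw [Nat.sub_add_cancel h0, iterate_mod_minimalPeriod_eq, hk]
end orbit

/-- One or two orbits of `g ↦ g * l g` give a listing sequence. -/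
theorem lst_of_orbits {G : Type*} [Group G] [Finite G] (A : Set G) (hA : Subgroup.closure A = ⊤) (l : G → G)
    (hl : ∀ g, l g ∈ A) (cl : G → Bool) (hc : ∀ g, cl (g * l g) = cl g)
    (h : ∀ g g', cl g' = cl g → ∃ k, (fun g => g * l g)^[k] g = g') : Lst A := by
  set f : G → G := fun g => g * l g with hf
  have hper : ∀ g, g ∈ periodicPts f := by
    intro g
    obtain ⟨k, hk⟩ := h (f g) g (hc g).symm
    refine ⟨k + 1, Nat.succ_pos _, ?_⟩
    show f^[k + 1] g = g
    rw [iterate_succ_apply, hk]
  have hck : ∀ k g, cl (f^[k] g) = cl g := by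
    intro k
    induction k with
    | zero => intro g; rfl
    | succ k ih => intro g; rw [iterate_succ_apply', ← ih g]; exact hc _
  have hedge : ∀ g, g⁻¹ * f g ∈ A := by
    intro g
    rw [hf]
    simp only [inv_mul_cancel_left]
    exact hl g
  by_cases h2 : ∀ g, cl g = cl 1
  · refine lst_of_walk A (minimalPeriod f 1) (fun k => f^[k] 1) ?_ ?_ ?_
    · intro k _
      simp only [iterate_succ_apply']
      exact hedge _
    · intro i hi j hj hij
      exact iter_inj f 1 i j hi hj hij
    · intro g
      exact iter_surj f 1 g (hper 1) (h 1 g (h2 g))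
  · -- an edge between the two cycles
    have h3 : ∃ g, cl g = cl 1 ∧ ∃ a ∈ A, cl (g * a) ≠ cl 1 := by
      by_contra hno
      push Not at hno
      apply h2
      intro g
      have hg : g ∈ Submonoid.closure A := by
        have e : g ∈ Subgroup.closure A := hA ▸ Subgroup.mem_top g
        rw [← Subgroup.mem_toSubmonoid, Subgroup.closure_toSubmonoid_of_finite] at e
        exact e
      refine Submonoid.closure_induction_right (motive := fun g _ => cl g = cl 1) rfl ?_ hg
      intro x _ y hy hx
      exact hno x hx y hy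
    obtain ⟨g₀, hg₀, a₀, ha₀, hne⟩ := h3
    set h₀ := g₀ * a₀ with hh₀
    set P := minimalPeriod f g₀ with hP
    set P' := minimalPeriod f h₀ with hP'
    have hPpos : 0 < P := minimalPeriod_pos_iff_mem_periodicPts.2 (hper g₀)
    refine lst_of_walk A (P + P') (fun k => if k ≤ P then f^[k] g₀ else f^[k - (P + 1)] h₀) ?_ ?_ ?_
    · intro k _
      rcases Nat.lt_trichotomy k P with hk | hk | hk
      · simp only [if_pos hk.le, if_pos (show k + 1 ≤ P by omega), iterate_succ_apply']
        exact hedge _
      · subst hk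
        simp only [if_pos le_rfl, if_neg (show ¬ P + 1 ≤ P by omega), Nat.sub_self]
        rw [hP, iterate_minimalPeriod]
        show g₀⁻¹ * h₀ ∈ A
        rw [hh₀, inv_mul_cancel_left]
        exact ha₀
      · simp only [if_neg (show ¬ k ≤ P by omega), if_neg (show ¬ k + 1 ≤ P by omega)]
        rw [show k + 1 - (P + 1) = (k - (P + 1)) + 1 by omega, iterate_succ_apply']
        exact hedge _
    · intro i hi j hj hij
      have hh : ∀ k, cl (f^[k] h₀) ≠ cl 1 := fun k => by rw [hck]; exact hne
      have hg : ∀ k, cl (f^[k] g₀) = cl 1 := fun k => by rw [hck]; exact hg₀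
      rcases Nat.lt_or_ge i P with hi1 | hi1 <;> rcases Nat.lt_or_ge j P with hj1 | hj1
      · simp only [if_pos (show i + 1 ≤ P by omega), if_pos (show j + 1 ≤ P by omega)] at hij
        exact iter_inj f g₀ i j hi1 hj1 hij
      · simp only [if_pos (show i + 1 ≤ P by omega), if_neg (show ¬ j + 1 ≤ P by omega)] at hij
        exact absurd (hij ▸ hg _) (hh _)
      · simp only [if_neg (show ¬ i + 1 ≤ P by omega), if_pos (show j + 1 ≤ P by omega)] at hij
        exact absurd (hij ▸ hg _) (hh _)
      · simp only [if_neg (show ¬ i + 1 ≤ P by omega), if_neg (show ¬ j + 1 ≤ P by omega)] at hij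
        have := iterate_injOn_Iio_minimalPeriod (f := f) (x := h₀)
          (Set.mem_Iio.2 (show i + 1 - (P + 1) < minimalPeriod f h₀ by omega))
          (Set.mem_Iio.2 (show j + 1 - (P + 1) < minimalPeriod f h₀ by omega)) hij
        omega
    · intro g
      by_cases hg : cl g = cl 1
      · obtain ⟨k, hk, e⟩ := iter_surj f g₀ g (hper g₀) (h g₀ g (by rw [hg, hg₀]))
        refine ⟨k, by omega, ?_⟩
        simp only [if_pos (show k + 1 ≤ P by omega)]
        exact e
      · have h4 : cl g = cl h₀ := by
          cases h5 : cl g <;> cases h6 : cl h₀ <;> cases h7 : cl 1 <;> simp_all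
        obtain ⟨k, hk⟩ := h h₀ g h4
        have hP0 : 0 < P' := minimalPeriod_pos_iff_mem_periodicPts.2 (hper h₀)
        refine ⟨P + k % P', by have := Nat.mod_lt k hP0; omega, ?_⟩
        simp only [if_neg (show ¬ P + k % P' + 1 ≤ P by omega)]
        rw [show P + k % P' + 1 - (P + 1) = k % P' by omega, hP', iterate_mod_minimalPeriod_eq, hk]

/-- LST. -/
theorem lst : LstS := by
  intro G _ _ A Φ _ hcl hΦ hTwo
  classical
  obtain ⟨x, y, hxy⟩ := hTwo
  have hf : (fun g => g * (g⁻¹ * Φ g)) = Φ := by
    funext g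
    rw [mul_inv_cancel_left]
  have hsame : ∀ g g' : G, Φ.SameCycle g g' → ∃ k, (fun g => g * (g⁻¹ * Φ g))^[k] g = g' := by
    intro g g' h
    obtain ⟨k, hk⟩ := h.exists_nat_pow_eq
    refine ⟨k, ?_⟩
    rw [hf, ← hk, Equiv.Perm.iterate_eq_pow]
  refine lst_of_orbits A hcl (fun g => g⁻¹ * Φ g) hΦ (fun g => decide (Φ.SameCycle x g))
    (fun g => ?_) fun g g' h => hsame g g' ?_
  · simp only [mul_inv_cancel_left]
    rw [decide_eq_decide]
    exact Equiv.Perm.sameCycle_apply_right
  · rw [decide_eq_decide] at h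
    by_cases h1 : Φ.SameCycle x g
    · exact h1.symm.trans (h.2 h1)
    · have h2 : Φ.SameCycle y g := (hxy g).resolve_left h1
      have h3 : Φ.SameCycle y g' := (hxy g').resolve_left fun h4 => h1 (h.1 h4)
      exact h2.symm.trans h3

end Pool.Agent.Lib.MP_688fd0_co.SQ6.LstRow
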